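import Pool.Agent.LibAC34.Stmt3
import Pool.Agent.LibIG50.TB
import Pool.Agent.LibBH2.TwTools
import Pool.Agent.LibBH2.Bilin

/-!
Elliptic curves of rank at most one.
-/

open WeierstrassCurve Pool.Agent.LibBH2 Pool.Agent.LibIG50 Pool.Agent.LibCHd Pool.Agent.LibGG
  Pool.Agent.LibAC34
open scoped Classical

namespace Pool.Agent.LibER66

theorem relation_of_rank {A : Type} [AddCommGroup A] (h : Module.rank ℤ A ≤ 1) (x y : A) :
    ∃ a b : ℤ, (a ≠ 0 ∨ b ≠ 0) ∧ a • x = b • y := by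
  by_contra hc
  push Not at hc
  have h1 : LinearIndependent ℤ ![x, y] := by
    rw [LinearIndependent.pair_iff]
    intro s t hst
    by_contra h2
    have h3 : s ≠ 0 ∨ -t ≠ 0 := by
      by_contra h4
      push Not at h4
      exact h2 ⟨h4.1, neg_eq_zero.1 h4.2⟩
    exact hc s (-t) h3 (by rw [neg_smul]; exact eq_neg_of_add_eq_zero_left hst)
  have h2 := h1.cardinal_le_rank.trans h
  rw [Cardinal.mk_fin, ← Nat.cast_one, Nat.cast_le] at h2
  exact absurd h2 (by norm_num)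

section

variable {W₁ W₂ : WeierstrassCurve Qb} [W₁.IsElliptic] [W₂.IsElliptic]

theorem zc_zsmul_left (n : ℤ) (P : W₁.toAffine.Point)
    (Q : W₂.toAffine.Point) : (zc (n • P) Q : CH0 W₁ W₂) = n • zc P Q := by
  exact DFunLike.congr_fun (map_zsmul (zHom W₁ W₂) n P) Q

theorem zc_zsmul_right (n : ℤ) (P : W₁.toAffine.Point)
    (Q : W₂.toAffine.Point) : (zc P (n • Q) : CH0 W₁ W₂) = n • zc P Q :=
  map_zsmul (zHom W₁ W₂ P) n Q

theorem zc_zero_left (Q : W₂.toAffine.Point) : (zc 0 Q : CH0 W₁ W₂) = 0 := by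
  have h := zc_nsmul_left (W₁ := W₁) (W₂ := W₂) 0 0 Q
  rwa [zero_smul, zero_smul] at h

theorem zc_zero_right (P : W₁.toAffine.Point) : (zc P 0 : CH0 W₁ W₂) = 0 := by
  have h := zc_nsmul_right (W₁ := W₁) (W₂ := W₂) 0 P 0
  rwa [zero_smul, zero_smul] at h

end

theorem fin_of_zsmul {A : Type} [AddCommGroup A] {n : ℤ} (hn : n ≠ 0) {x : A}
    (h : IsOfFinAddOrder (n • x)) : IsOfFinAddOrder x := by
  rw [isOfFinAddOrder_iff_zsmul_eq_zero] at h ⊢
  obtain ⟨m, hm, h1⟩ := h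
  exact ⟨m * n, mul_ne_zero hm hn, by rw [mul_smul, h1]⟩

theorem zc_fin_of_rel {W : WeierstrassCurve Qb} [W.IsElliptic] {P Q : W.toAffine.Point} {a b : ℤ}
    (hab : a ≠ 0 ∨ b ≠ 0) (h : a • P = b • Q) : IsOfFinAddOrder (zc P Q : CH0 W W) := by
  have hPP : IsOfFinAddOrder (zc P P : CH0 W W) :=
    isOfFinAddOrder_iff_nsmul_eq_zero.2 ⟨2, two_pos, zc_self_torsion P⟩
  by_cases hb : b = 0
  · have ha : a ≠ 0 := by
      rcases hab with h1 | h1
      · exact h1
      · exact absurd hb h1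
    have h0 : a • P = 0 := by
      rw [h, hb]
      exact SubNegMonoid.zsmul_zero' Q
    refine fin_of_zsmul ha ?_
    rw [← zc_zsmul_left, h0, zc_zero_left]
    exact IsOfFinAddOrder.zero
  · refine fin_of_zsmul hb ?_
    rw [← zc_zsmul_right, ← h, zc_zsmul_right]
    exact hPP.zsmul

/-- the division hull of a subgroup -/
def hull {A : Type} [AddCommGroup A] (S : AddSubgroup A) : AddSubgroup A where
  carrier := {x | ∃ n : ℕ, n ≠ 0 ∧ n • x ∈ S}
  zero_mem' := ⟨1, one_ne_zero, by rw [smul_zero]; exact S.zero_mem⟩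
  add_mem' := by
    rintro x y ⟨n, hn, hx⟩ ⟨m, hm, hy⟩
    refine ⟨n * m, mul_ne_zero hn hm, ?_⟩
    rw [smul_add]
    refine S.add_mem ?_ ?_
    · rw [mul_comm, mul_smul]
      exact S.nsmul_mem hx m
    · rw [mul_smul]
      exact S.nsmul_mem hy n
  neg_mem' := by
    rintro x ⟨n, hn, hx⟩
    exact ⟨n, hn, by rw [smul_neg]; exact S.neg_mem hx⟩

theorem exists_rank_one (K : Type) [Field K] [Algebra K Qb] (E : WeierstrassCurve K)
    [E.IsElliptic] (h : Module.rank ℤ E.toAffine.Point ≤ 1) :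
    ∃ Γ : Grid, Pw Γ ∧ ∀ P : E.toAffine.Point, constPt Qb P ∈ Γ (E⁄Qb) := by
  have hE' : (E⁄Qb).IsElliptic := inferInstanceAs (E.map (algebraMap K Qb)).IsElliptic
  let S : AddSubgroup (E⁄Qb).toAffine.Point := hull (constHom Qb E).range
  let Γ : Grid := fun W => if hW : E⁄Qb = W then hW ▸ S else ⊥
  have hS : Γ (E⁄Qb) = S := dif_pos rfl
  have hbot : ∀ W, E⁄Qb ≠ W → Γ W = ⊥ := fun W hW => dif_neg hW
  refine ⟨Γ, ?_, ?_⟩
  · intro W W' hW hW' P hP Q hQ
    by_cases h1 : E⁄Qb = W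
    · by_cases h2 : E⁄Qb = W'
      · subst h1
        subst h2
        rw [hS] at hP hQ
        obtain ⟨n, hn, P', hP'⟩ := hP
        obtain ⟨m, hm, Q', hQ'⟩ := hQ
        obtain ⟨a, b, hab, h3⟩ := relation_of_rank h P' Q'
        refine zc_fin_of_rel (a := a * n) (b := b * m) ?_ ?_
        · rcases hab with h4 | h4
          · exact Or.inl (mul_ne_zero h4 (by exact_mod_cast hn))
          · exact Or.inr (mul_ne_zero h4 (by exact_mod_cast hm))
        · rw [mul_smul, mul_smul, natCast_zsmul, natCast_zsmul, ← hP', ← hQ', ← map_zsmul,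
            ← map_zsmul, h3]
      · rw [hbot W' h2] at hQ
        rw [AddSubgroup.mem_bot.1 hQ, zc_zero_right]
        exact IsOfFinAddOrder.zero
    · rw [hbot W h1] at hP
      rw [AddSubgroup.mem_bot.1 hP, zc_zero_left]
      exact IsOfFinAddOrder.zero
  · intro P
    rw [hS]
    exact ⟨1, one_ne_zero, by rw [one_smul]; exact ⟨P, rfl⟩⟩

end Pool.Agent.LibER66
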