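import Pool.Agent.LibER66.Stmt
import Pool.Agent.LibER66.RankOne
import Pool.Agent.LibAC34.Final
import Pool.Agent.LibCV66.R2
import Pool.Agent.LibMul34.Fin
import Pool.Agent.LibAF11.Exist

/-!
The exact rank: the theorem.
-/

open WeierstrassCurve Pool.Agent.LibBH2 Pool.Agent.LibIG50 Pool.Agent.LibCHd Pool.Agent.LibGG
  Pool.Agent.LibAC34 Pool.Agent.LibAF11
open scoped Classical

namespace Pool.Agent.LibER66

theorem pw_bot {Γ : Grid} (h : Pw Γ) : Pw (fun _ => ⊥) := by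
  intro E E' hE hE' P hP Q hQ
  have hP' : P = 0 := AddSubgroup.mem_bot.1 hP
  have hQ' : Q = 0 := AddSubgroup.mem_bot.1 hQ
  subst hP' hQ'
  exact h E E' hE hE' 0 (zero_mem _) 0 (zero_mem _)

theorem exactRank {Γ : Grid} (h : Pw Γ) (K : Type) [Field K] [NumberField K] [Algebra K Qb] :
    ExactRank K Γ := by
  intro E hE r D Y L _ _ u F _ _ l ξ hξ
  have h1 := LibCV66.exact K (LibAC6.all_dim (LibAC34.pw_orth h))
    (LibAC6.all_dim (LibAC34.pw_orth (pw_bot h)))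
    E hE r D Y L u F l ξ hξ
  have h2 : LibCV66.mul r D =
      r.choose D * r.choose (D + 1) - r.choose (r + 1 - D) * r.choose (D + 2) := LibMul34.mul_eq r D
  rw [h2] at h1
  exact h1

theorem gal_constPt {K : Type} [Field K] [Algebra K Qb] {E : WeierstrassCurve K}
    (σ : Qb ≃ₐ[K] Qb) (P : E.toAffine.Point) : gal σ (constPt Qb P) = constPt Qb P := by
  rcases P with _ | ⟨x, y, h⟩
  · rfl
  · have h1 : ∀ z : K, (σ : Qb →ₐ[K] Qb) (algebraMap K Qb z) = algebraMap K Qb z :=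
      fun z => (σ : Qb →ₐ[K] Qb).commutes z
    change Affine.Point.map (σ : Qb →ₐ[K] Qb) (Affine.Point.some _ _ _) = _
    rw [Affine.Point.map_some]
    simp only [h1]
    rfl

theorem rk_GK (K : Type) [Field K] [NumberField K] [Algebra K Qb] (E : WeierstrassCurve K)
    {Γ : Grid} (h : ∀ P : E.toAffine.Point, constPt Qb P ∈ Γ (E⁄Qb)) :
    rk (GK Γ E) = Module.rank ℤ E.toAffine.Point := by
  have h1 : GK Γ E = (constHom Qb E).range := by
    ext R
    constructor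
    · rintro ⟨-, hR⟩
      obtain ⟨P, hP⟩ := exists_of_fixed K E R hR
      exact ⟨P, hP⟩
    · rintro ⟨P, rfl⟩
      exact ⟨h P, fun σ => gal_constPt σ P⟩
  rw [rk, h1, AddSubgroup.closure_eq]
  exact (AddMonoidHom.ofInjective (LibBH2.constPt_injective Qb E)).toIntLinearEquiv.rank_eq.symm

/-- **The theorem.** -/
theorem exact_ranks :
    (∀ Γ : Grid, PwC Γ → ∀ (K : Type) [Field K] [NumberField K] [Algebra K Qb], ExactRank K Γ) ∧
    (∀ (K : Type) [Field K] [NumberField K] [Algebra K Qb] (E : WeierstrassCurve K)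
      [E.IsElliptic], Module.rank ℤ E.toAffine.Point ≤ 1 →
      ∃ Γ : Grid, PwC Γ ∧ rk (GK Γ E) = Module.rank ℤ E.toAffine.Point ∧
        ∀ P : E.toAffine.Point, constPt Qb P ∈ Γ (E⁄Qb)) ∧
    ∀ (K : Type) [Field K] [NumberField K] [Algebra K Qb] (E₀ : WeierstrassCurve K)
      [E₀.IsElliptic] (T P : E₀.toAffine.Point), T ≠ 0 → 2 • T = 0 →
      ∃ Γ : Grid, PwC Γ ∧ constPt Qb P ∈ Γ (E₀⁄Qb) ∧ InfRank Γ ∧ Stable K Γ :=
  ⟨fun _ h K _ _ _ => exactRank (pw_of_pwC h) K,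
    fun K _ _ _ E _ h => by
      obtain ⟨Γ, h1, h2⟩ := exists_rank_one K E h
      exact ⟨Γ, pwC_of_pw h1, rk_GK K E h2, h2⟩,
    fun K _ _ _ E₀ _ T P hT hT' => exist K E₀ T P hT hT'⟩

end Pool.Agent.LibER66
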