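import Pool.Agent.LibAC34.Stmt2

/-!
The homologically trivial cycles over a number field on a power of an elliptic curve: the statement.
-/

open WeierstrassCurve Pool.Agent.LibBH2 Pool.Agent.LibIG50 Pool.Agent.LibCHd Pool.Agent.LibGG
  Pool.Agent.LibAC34
open scoped Classical

namespace Pool.Agent.LibER66

variable {K : Type} [Field K] [Algebra K Qb] {D r : ℕ}

/-- The homologically trivial cycles among the cycles `ZKD Γ V E` over `K` on `A = E 1 × ... × E r`: the
intersection numbers `∑ n * det (Mᵀ N) ^ 2` of `c = ∑ n (N_* B + g)` with the kernels of the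
homomorphisms `Mᵀ : A → B` are zero. -/
def ZK0 (Γ : Grid) (V : Fin D → WeierstrassCurve K) (E : Fin r → WeierstrassCurve K) :
    Set ((Matrix (Fin r) (Fin D) ℤ × Pts (fun i => (E i)⁄Qb)) →₀ ℤ) :=
  {c | c ∈ ZKD Γ V E ∧ ∀ M, Mat (fun a => (V a)⁄Qb) (fun i => (E i)⁄Qb) M →
    (c.sum fun p n => n * (M.transpose * p.1).det ^ 2) = 0}

/-- the points of `E` over `K` which belong to the group `Γ E` -/
def GK (Γ : Grid) (E : WeierstrassCurve K) : Set (E⁄Qb).toAffine.Point :=
  {R | R ∈ Γ (E⁄Qb) ∧ ∀ σ : Qb ≃ₐ[K] Qb, gal σ R = R}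

/-- **Exact rank.** For every elliptic curve `E` over `K` the classes of the homologically trivial cycles
`c` over `K` of dimension `D` on `E ^ r` which are combinations of the translates of the images of `E ^ D`
by points with components in `Γ E` generate a group of rank
`(C(r, D) C(r, D + 1) - C(r, D - 1) C(r, D + 2)) * rank (E(K) ∩ Γ E)`; note that
`C(r, D - 1) = C(r, r + 1 - D)` is `0` for `D = 0`. Here `CH_D (E ^ r)` may be replaced by
`CH_D (E ^ r × Y)`, `Y` projective: for a point `u` of `E ^ r × Y` over `Qb` the class of the image of the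
cycle `c` under the translation by `u` is taken. -/
def ExactRank (K : Type) [Field K] [Algebra K Qb] (Γ : Grid) : Prop :=
  ∀ (E : WeierstrassCurve K), E.IsElliptic → ∀ (r D : ℕ) (Y : Prj Qb) (L : Type) [Field L]
    [Algebra Qb L] (u : Pnt (fun _ : Fin r => E⁄Qb) Y L) (F : Type) [Field F] [Algebra Qb F]
    (l : L →ₐ[Qb] F) (ξ : ∀ _ : Fin D, ((E⁄Qb)⁄F).toAffine.Point),
    IsGen 0 l (fun _ => E⁄Qb) ξ →
      rk (actD l (0 + D) ξ u '' ZK0 Γ (fun _ => E) (fun _ => E)) =
        (r.choose D * r.choose (D + 1) - r.choose (r + 1 - D) * r.choose (D + 2) : ℕ) *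
          rk (GK Γ E)

end Pool.Agent.LibER66
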